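import Pool.Agent.H12.SP.Defs

/-!
# Few Wieferich primes
-/

set_option autoImplicit false

namespace Pool.Agent.H74.SP

open Pool.Agent.H12.SP Finset

/-- a set of integers below `L` in one residue class -/
theorem card_class (L d : ℕ) (hd : 0 < d) (S : Finset ℕ) (hS : ∀ l ∈ S, l < L)
    (h : ∀ a ∈ S, ∀ b ∈ S, a < b → d ∣ b - a) : S.card ≤ L / d + 1 := by
  have hinj : Set.InjOn (fun l => l / d) (S : Set ℕ) := by
    intro a ha b hb hab
    simp only at hab
    by_contra hne
    rcases Nat.lt_or_gt_of_ne hne with hlt | hlt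
    · have h1 := h a ha b hb hlt
      have h2 : b - a < d := by
        have e1 := Nat.div_add_mod a d
        have e2 := Nat.div_add_mod b d
        have e3 := Nat.mod_lt a hd
        have e4 := Nat.mod_lt b hd
        rw [hab] at e1
        omega
      have h3 := Nat.le_of_dvd (by omega) h1
      omega
    · have h1 := h b hb a ha hlt
      have h2 : a - b < d := by
        have e1 := Nat.div_add_mod a d
        have e2 := Nat.div_add_mod b d
        have e3 := Nat.mod_lt a hd
        have e4 := Nat.mod_lt b hd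
        rw [hab] at e1
        omega
      have h3 := Nat.le_of_dvd (by omega) h1
      omega
  have hsub : S.image (fun l => l / d) ⊆ range (L / d + 1) := by
    intro q hq
    rw [mem_image] at hq
    obtain ⟨l, hl, rfl⟩ := hq
    rw [mem_range]
    have := Nat.div_le_div_right (c := d) (hS l hl).le
    omega
  calc S.card = (S.image (fun l => l / d)).card := (card_image_of_injOn hinj).symm
    _ ≤ (range (L / d + 1)).card := card_le_card hsub
    _ = L / d + 1 := card_range _

theorem pf_wb (hORD : T_ORD) : T_WB := by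
  classical
  intro hW x A hA n hn
  obtain ⟨hnx, hn1, hodd, hrep⟩ := hA n hn
  have hLL : LL n = range (Nat.clog 2 n) := by
    ext l
    unfold LL
    rw [mem_filter, mem_range, mem_range]
    constructor
    · rintro ⟨-, h2⟩
      by_contra hc
      push Not at hc
      have h3 : n ≤ 2 ^ Nat.clog 2 n := Nat.le_pow_clog (by norm_num) n
      have h4 : 2 ^ Nat.clog 2 n ≤ 2 ^ l := Nat.pow_le_pow_right (by norm_num) hc
      omega
    · intro h
      have h2 : 2 ^ l < n := by
        by_contra hc
        push Not at hc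
        have := Nat.clog_le_of_le_pow hc
        omega
      exact ⟨lt_trans Nat.lt_two_pow_self h2, h2⟩
  set L := Nat.clog 2 n with hL
  have hLcard : (LL n).card = L := by rw [hLL, card_range]
  have hL1 : 1 ≤ L := by
    have : 0 < Nat.clog 2 n := Nat.clog_pos (by norm_num) hn1
    omega
  have hnL : n ≤ 2 ^ L := Nat.le_pow_clog (by norm_num) n
  have hLn : ∀ l, l ∈ LL n → 2 ^ l < n := by
    intro l hl
    unfold LL at hl
    exact (mem_filter.mp hl).2
  -- the primes
  set P : Finset ℕ := (range (n + 1)).filter (fun p => Wief p ∧ 2 ^ od p ≤ n) with hP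
  have hne2 : ∀ p, Wief p → p ≠ 2 := by
    rintro p hp rfl
    have := hp.2
    norm_num at this
  have hcover : GG n ⊆ P.biUnion (fun p => (LL n).filter (fun l => p ^ 2 ∣ n - 2 ^ l)) := by
    intro l hl
    have hl' : l ∈ LL n ∧ Nice n (n - 2 ^ l) := by
      unfold GG at hl
      exact mem_filter.mp hl
    obtain ⟨hlL, hnice⟩ := hl'
    have hlt := hLn l hlL
    have hnsq : ¬ Squarefree (n - 2 ^ l) := by
      intro hsq
      exact hrep ⟨n - 2 ^ l, l, hsq, by omega⟩
    rw [Nat.squarefree_iff_prime_squarefree] at hnsq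
    push Not at hnsq
    obtain ⟨p, hp, hdvd⟩ := hnsq
    rw [← pow_two] at hdvd
    obtain ⟨hWp, hodp⟩ := hnice p hp hdvd
    rw [mem_biUnion]
    refine ⟨p, ?_, ?_⟩
    · rw [hP, mem_filter, mem_range]
      refine ⟨?_, hWp, hodp⟩
      have h1 := Nat.le_of_dvd (by omega) hdvd
      have h2 : p ≤ p ^ 2 := Nat.le_self_pow (by norm_num) p
      have h3 : n - 2 ^ l ≤ n := Nat.sub_le n (2 ^ l)
      exact Nat.lt_succ_of_le (h2.trans (h1.trans h3))
    · rw [mem_filter]
      exact ⟨hlL, hdvd⟩
  have hone : ∀ p ∈ P, (((LL n).filter (fun l => p ^ 2 ∣ n - 2 ^ l)).card : ℝ) ≤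
      2 * L * (1 / od p) := by
    intro p hp
    rw [hP, mem_filter] at hp
    obtain ⟨-, hWp, hodp⟩ := hp
    have hp2 := hne2 p hWp
    have hodpos : 0 < od p := (hORD.1 p hWp.1 hp2).1
    have hodL : od p ≤ L := by
      have : 2 ^ od p ≤ 2 ^ L := le_trans hodp hnL
      exact (Nat.pow_le_pow_iff_right (by norm_num)).mp this
    have hc := card_class L (od p) hodpos ((LL n).filter (fun l => p ^ 2 ∣ n - 2 ^ l))
      (by
        intro l hl
        have := (mem_filter.mp hl).1
        rw [hLL, mem_range] at this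
        exact this)
      (by
        intro a ha b hb hab
        obtain ⟨ha1, ha2⟩ := mem_filter.mp ha
        obtain ⟨hb1, hb2⟩ := mem_filter.mp hb
        have ea := hLn a ha1
        have eb := hLn b hb1
        apply hORD.2.1 p hWp.1 hp2 a b hab
        have h1 : p ∣ n - 2 ^ a := dvd_trans (dvd_pow_self p (by norm_num)) ha2
        have h2 : p ∣ n - 2 ^ b := dvd_trans (dvd_pow_self p (by norm_num)) hb2
        have h3 := Nat.dvd_sub h1 h2
        have h4 : (n - 2 ^ a) - (n - 2 ^ b) = 2 ^ b - 2 ^ a := by omega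
        rwa [h4] at h3)
    have h1 : (((LL n).filter (fun l => p ^ 2 ∣ n - 2 ^ l)).card : ℝ) ≤
        ((L / od p + 1 : ℕ) : ℝ) := by exact_mod_cast hc
    have h2 : ((L / od p : ℕ) : ℝ) ≤ (L : ℝ) / od p := Nat.cast_div_le
    have hodR : (0 : ℝ) < od p := by exact_mod_cast hodpos
    have h3 : (1 : ℝ) ≤ (L : ℝ) / od p := by
      rw [le_div_iff₀ hodR, one_mul]
      exact_mod_cast hodL
    push_cast at h1
    have h4 : 2 * (L : ℝ) * (1 / od p) = L / od p + L / od p := by ring
    rw [h4]
    linarith
  have hsum := hW P (fun p hp => by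
    rw [hP, mem_filter] at hp
    exact hp.2.1)
  have hGG : ((GG n).card : ℝ) ≤ 2 * L * (1 / 9) := by
    calc ((GG n).card : ℝ) ≤
        ((P.biUnion (fun p => (LL n).filter (fun l => p ^ 2 ∣ n - 2 ^ l))).card : ℝ) := by
          exact_mod_cast card_le_card hcover
      _ ≤ ((∑ p ∈ P, ((LL n).filter (fun l => p ^ 2 ∣ n - 2 ^ l)).card : ℕ) : ℝ) := by
          exact_mod_cast card_biUnion_le
      _ = ∑ p ∈ P, (((LL n).filter (fun l => p ^ 2 ∣ n - 2 ^ l)).card : ℝ) := by push_cast; rfl
      _ ≤ ∑ p ∈ P, 2 * (L : ℝ) * (1 / od p) := Finset.sum_le_sum hone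
      _ = 2 * L * ∑ p ∈ P, (1 : ℝ) / od p := by rw [Finset.mul_sum]
      _ ≤ 2 * L * (1 / 9) := by
          apply mul_le_mul_of_nonneg_left hsum
          positivity
  have hfin : 4 * (GG n).card < (LL n).card := by
    rw [hLcard]
    have hLR : (1 : ℝ) ≤ L := by exact_mod_cast hL1
    have : (4 * (GG n).card : ℝ) < L := by linarith
    exact_mod_cast this
  unfold EX
  rw [mem_filter, mem_range]
  exact ⟨by omega, hodd, hfin⟩

end Pool.Agent.H74.SP
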