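import Pool.Agent.H12.SP.Defs

/-!
# One large prime, two primes
-/

set_option autoImplicit false

namespace Pool.Agent.H74.SP

open Pool.Agent.H12.SP Finset

theorem exists_cube (x : ℕ) : ∃ N : ℕ, x ≤ N ^ 3 := by
  refine ⟨x, ?_⟩
  exact Nat.le_self_pow (by norm_num) x

/-- the cube root rounded up -/
noncomputable def cr (x : ℕ) : ℕ := by
  classical exact Nat.find (exists_cube x)

theorem le_cr (x : ℕ) : x ≤ cr x ^ 3 := by
  classical
  unfold cr
  exact Nat.find_spec (exists_cube x)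

theorem cr_le (x p : ℕ) (h : x ≤ p ^ 3) : cr x ≤ p := by
  classical
  unfold cr
  exact Nat.find_min' (exists_cube x) h

theorem lt_cr (x p : ℕ) (h : p ^ 3 < x) : p < cr x := by
  by_contra hc
  push Not at hc
  have := Nat.pow_le_pow_left hc 3
  have := le_cr x
  omega

theorem root_pow (x : ℕ) : ((x : ℝ) ^ (1 / 3 : ℝ)) ^ 3 = x := by
  rw [← Real.rpow_natCast, ← Real.rpow_mul (by positivity)]
  norm_num

theorem root_sq (x : ℕ) : ((x : ℝ) ^ (1 / 3 : ℝ)) ^ 2 = (x : ℝ) ^ (2 / 3 : ℝ) := by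
  rw [← Real.rpow_natCast, ← Real.rpow_mul (by positivity)]
  norm_num

theorem one_le_root (x : ℕ) (hx : 1 ≤ x) : 1 ≤ (x : ℝ) ^ (1 / 3 : ℝ) := by
  apply Real.one_le_rpow
  · exact_mod_cast hx
  · norm_num

theorem root_le_cr (x : ℕ) : (x : ℝ) ^ (1 / 3 : ℝ) ≤ cr x := by
  have h1 : ((x : ℝ) ^ (1 / 3 : ℝ)) ^ 3 ≤ (cr x : ℝ) ^ 3 := by
    rw [root_pow]
    exact_mod_cast le_cr x
  exact le_of_pow_le_pow_left₀ (by norm_num) (by positivity) h1

theorem cr_le_root (x : ℕ) (hx : 1 ≤ x) : (cr x : ℝ) ≤ 2 * (x : ℝ) ^ (1 / 3 : ℝ) := by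
  have h1 := one_le_root x hx
  have hpos : 1 ≤ cr x := by
    by_contra hc
    have h0 : cr x = 0 := by omega
    have := le_cr x
    rw [h0] at this
    omega
  have h2 : (cr x - 1) ^ 3 < x := by
    by_contra hc
    push Not at hc
    have := cr_le x _ hc
    omega
  have h3 : ((cr x - 1 : ℕ) : ℝ) ^ 3 ≤ ((x : ℝ) ^ (1 / 3 : ℝ)) ^ 3 := by
    rw [root_pow]
    exact_mod_cast h2.le
  have h4 := le_of_pow_le_pow_left₀ (by norm_num) (by positivity) h3
  rw [Nat.cast_sub hpos] at h4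
  push_cast at h4
  linarith

theorem log_bound (x : ℕ) (hx : 1 ≤ x) :
    ((Nat.log 2 x + 1 : ℕ) : ℝ) ≤ 2 * (1 + Real.log x) := by
  have h1 : (Nat.log 2 x : ℝ) ≤ Real.logb 2 x := by
    have := Real.natLog_le_logb x 2
    exact_mod_cast this
  have hlog : 0 ≤ Real.log x := Real.log_nonneg (by exact_mod_cast hx)
  have h2 : Real.logb 2 x ≤ 2 * Real.log x := by
    unfold Real.logb
    have h3 : (1 : ℝ) / 2 ≤ Real.log 2 := by
      have := Real.log_two_gt_d9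
      linarith
    have h4 : (0 : ℝ) < Real.log 2 := by linarith
    rw [div_le_iff₀ h4]
    nlinarith
  push_cast
  linarith

theorem lt_log (x n l : ℕ) (hn : n ≤ x) (hl : 2 ^ l < n) : l ∈ range (Nat.log 2 x + 1) := by
  rw [mem_range]
  have h : 2 ^ l ≤ x := by omega
  have := Nat.le_log_of_pow_le (by norm_num) h
  omega

theorem pf_ca (hCNT : T_CNT) : T_CA := by
  classical
  refine ⟨8, ?_⟩
  intro x hx A hA
  set N := cr x with hN
  set P : Finset ℕ := (Ioo (N - 1) (Nat.sqrt x + 1)).filter (fun p => p.Prime) with hP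
  set F : ℕ → ℕ → Finset ℕ := fun l p => A.filter (fun n => 2 ^ l < n ∧ p ^ 2 ∣ n - 2 ^ l)
    with hF
  have hcover : A ⊆ (range (Nat.log 2 x + 1)).biUnion (fun l => P.biUnion (fun p => F l p)) := by
    intro n hn
    obtain ⟨hnx, l, p, hl, hp, hxp, hdvd⟩ := hA n hn
    rw [mem_biUnion]
    refine ⟨l, lt_log x n l hnx hl, ?_⟩
    rw [mem_biUnion]
    refine ⟨p, ?_, ?_⟩
    · rw [hP, mem_filter, mem_Ioo]
      have h1 := cr_le x p hxp
      have h2 := Nat.le_of_dvd (by omega) hdvd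
      have h3 : p ≤ Nat.sqrt x := by
        rw [Nat.le_sqrt, ← pow_two]
        exact h2.trans ((Nat.sub_le n (2 ^ l)).trans hnx)
      have h4 := hp.pos
      exact ⟨⟨by omega, by omega⟩, hp⟩
    · rw [hF]
      simp only [mem_filter]
      exact ⟨hn, hl, hdvd⟩
  have hone : ∀ l, ∀ p ∈ P, ((F l p).card : ℝ) ≤ x * ((p : ℝ) ^ 2)⁻¹ + 1 := by
    intro l p hp
    rw [hP, mem_filter] at hp
    have h := hCNT x {l} (fun _ => p) (fun _ _ => hp.2)
      (fun a ha b hb _ => by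
        rw [mem_singleton] at ha hb
        rw [ha, hb]) (F l p)
      (fun n hn => by
        rw [hF] at hn
        simp only [mem_filter] at hn
        refine ⟨(hA n hn.1).1, ?_⟩
        intro j hj
        rw [mem_singleton] at hj
        rw [hj]
        exact hn.2)
    rw [prod_singleton] at h
    rw [div_eq_mul_inv] at h
    exact h
  have hroot := one_le_root x hx
  have hrc := root_le_cr x
  have hNpos : 1 ≤ N := by
    have : (1 : ℝ) ≤ N := hroot.trans hrc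
    exact_mod_cast this
  have hPcard : (P.card : ℝ) ≤ 2 * ((x : ℝ) ^ (1 / 3 : ℝ)) ^ 2 := by
    have h1 : P.card ≤ Nat.sqrt x := by
      calc P.card ≤ (Ioo (N - 1) (Nat.sqrt x + 1)).card := card_filter_le _ _
        _ ≤ Nat.sqrt x := by rw [Nat.card_Ioo]; omega
    have h2 : (Nat.sqrt x : ℝ) ^ 2 ≤ x := by
      have := Nat.sqrt_le' x
      exact_mod_cast this
    have h3 : (Nat.sqrt x : ℝ) ≤ ((x : ℝ) ^ (1 / 3 : ℝ)) ^ 2 := by
      have h4 : (Nat.sqrt x : ℝ) ^ 2 ≤ (((x : ℝ) ^ (1 / 3 : ℝ)) ^ 2) ^ 2 := by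
        calc (Nat.sqrt x : ℝ) ^ 2 ≤ x := h2
          _ = ((x : ℝ) ^ (1 / 3 : ℝ)) ^ 3 := (root_pow x).symm
          _ ≤ ((x : ℝ) ^ (1 / 3 : ℝ)) ^ 4 := pow_le_pow_right₀ hroot (by norm_num)
          _ = (((x : ℝ) ^ (1 / 3 : ℝ)) ^ 2) ^ 2 := by ring
      exact le_of_pow_le_pow_left₀ (by norm_num) (by positivity) h4
    have h5 : (P.card : ℝ) ≤ Nat.sqrt x := by exact_mod_cast h1
    nlinarith [sq_nonneg ((x : ℝ) ^ (1 / 3 : ℝ))]
  have hPsum : (x : ℝ) * ∑ p ∈ P, ((p : ℝ) ^ 2)⁻¹ ≤ 2 * ((x : ℝ) ^ (1 / 3 : ℝ)) ^ 2 := by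
    have h1 : ∑ p ∈ P, ((p : ℝ) ^ 2)⁻¹ ≤ 2 / (((N - 1 : ℕ) : ℝ) + 1) := by
      calc ∑ p ∈ P, ((p : ℝ) ^ 2)⁻¹ ≤ ∑ p ∈ Ioo (N - 1) (Nat.sqrt x + 1), ((p : ℝ) ^ 2)⁻¹ := by
            apply sum_le_sum_of_subset_of_nonneg
            · exact filter_subset _ _
            · intro i _ _
              positivity
        _ ≤ _ := sum_Ioo_inv_sq_le (N - 1) (Nat.sqrt x + 1)
    have h2 : ((N - 1 : ℕ) : ℝ) + 1 = N := by
      rw [Nat.cast_sub hNpos]
      push_cast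
      ring
    rw [h2] at h1
    have hNR : (0 : ℝ) < N := by exact_mod_cast hNpos
    calc (x : ℝ) * ∑ p ∈ P, ((p : ℝ) ^ 2)⁻¹ ≤ x * (2 / N) :=
          mul_le_mul_of_nonneg_left h1 (by positivity)
      _ = 2 * (x / N) := by ring
      _ ≤ 2 * ((x : ℝ) ^ (1 / 3 : ℝ)) ^ 2 := by
          apply mul_le_mul_of_nonneg_left _ (by norm_num)
          rw [div_le_iff₀ hNR]
          calc (x : ℝ) = ((x : ℝ) ^ (1 / 3 : ℝ)) ^ 3 := (root_pow x).symm
            _ = ((x : ℝ) ^ (1 / 3 : ℝ)) ^ 2 * (x : ℝ) ^ (1 / 3 : ℝ) := by ring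
            _ ≤ ((x : ℝ) ^ (1 / 3 : ℝ)) ^ 2 * N :=
                mul_le_mul_of_nonneg_left hrc (by positivity)
  have hl : ∀ l, ((P.biUnion (fun p => F l p)).card : ℝ) ≤ 4 * ((x : ℝ) ^ (1 / 3 : ℝ)) ^ 2 := by
    intro l
    calc ((P.biUnion (fun p => F l p)).card : ℝ) ≤ ((∑ p ∈ P, (F l p).card : ℕ) : ℝ) := by
          exact_mod_cast card_biUnion_le
      _ = ∑ p ∈ P, ((F l p).card : ℝ) := by push_cast; rfl
      _ ≤ ∑ p ∈ P, ((x : ℝ) * ((p : ℝ) ^ 2)⁻¹ + 1) := sum_le_sum (hone l)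
      _ = x * ∑ p ∈ P, ((p : ℝ) ^ 2)⁻¹ + P.card := by
          rw [sum_add_distrib, mul_sum]
          simp
      _ ≤ _ := by linarith
  have hlog := log_bound x hx
  have hlog0 : 0 ≤ Real.log x := Real.log_nonneg (by exact_mod_cast hx)
  rw [← root_sq]
  calc (A.card : ℝ) ≤
      (((range (Nat.log 2 x + 1)).biUnion (fun l => P.biUnion (fun p => F l p))).card : ℝ) := by
        exact_mod_cast card_le_card hcover
    _ ≤ ((∑ l ∈ range (Nat.log 2 x + 1), (P.biUnion (fun p => F l p)).card : ℕ) : ℝ) := by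
        exact_mod_cast card_biUnion_le
    _ = ∑ l ∈ range (Nat.log 2 x + 1), ((P.biUnion (fun p => F l p)).card : ℝ) := by
        push_cast; rfl
    _ ≤ ∑ _l ∈ range (Nat.log 2 x + 1), 4 * ((x : ℝ) ^ (1 / 3 : ℝ)) ^ 2 :=
        sum_le_sum (fun l _ => hl l)
    _ = ((Nat.log 2 x + 1 : ℕ) : ℝ) * (4 * ((x : ℝ) ^ (1 / 3 : ℝ)) ^ 2) := by
        rw [sum_const, card_range, nsmul_eq_mul]
    _ ≤ (2 * (1 + Real.log x)) * (4 * ((x : ℝ) ^ (1 / 3 : ℝ)) ^ 2) :=
        mul_le_mul_of_nonneg_right hlog (by positivity)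
    _ = 8 * (1 + Real.log x) * ((x : ℝ) ^ (1 / 3 : ℝ)) ^ 2 := by ring

theorem pf_cb (hCNT : T_CNT) : T_CB := by
  classical
  refine ⟨32, ?_⟩
  intro x hx A hA
  set N := cr x with hN
  set R := range (Nat.log 2 x + 1) with hR
  set F : (ℕ × ℕ) × (ℕ × ℕ) → Finset ℕ := fun v =>
    if v.1.1 ≠ v.1.2 ∧ v.2.1 ≠ v.2.2 ∧ v.2.1.Prime ∧ v.2.2.Prime ∧ x ≤ (v.2.1 * v.2.2) ^ 2 then
      A.filter (fun n => 2 ^ v.1.1 < n ∧ 2 ^ v.1.2 < n ∧ v.2.1 ^ 2 ∣ n - 2 ^ v.1.1 ∧
        v.2.2 ^ 2 ∣ n - 2 ^ v.1.2)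
    else ∅ with hF
  set I := (R ×ˢ R) ×ˢ (range N ×ˢ range N) with hI
  have hcover : A ⊆ I.biUnion F := by
    intro n hn
    obtain ⟨hnx, l, l', p, p', hll, hpp, hp, hp', hl, hl', hx1, hx2, hx3, hd1, hd2⟩ := hA n hn
    rw [mem_biUnion]
    refine ⟨((l, l'), (p, p')), ?_, ?_⟩
    · rw [hI, mem_product, mem_product, mem_product]
      exact ⟨⟨lt_log x n l hnx hl, lt_log x n l' hnx hl'⟩,
        mem_range.mpr (lt_cr x p hx1), mem_range.mpr (lt_cr x p' hx2)⟩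
    · rw [hF]
      simp only
      rw [if_pos ⟨hll, hpp, hp, hp', hx3⟩, mem_filter]
      exact ⟨hn, hl, hl', hd1, hd2⟩
  have hone : ∀ v ∈ I, ((F v).card : ℝ) ≤ 2 := by
    rintro ⟨⟨l, l'⟩, ⟨p, p'⟩⟩ -
    rw [hF]
    simp only
    split_ifs with hc
    · obtain ⟨hll, hpp, hp, hp', hx3⟩ := hc
      set f : ℕ → ℕ := fun j => if j = l then p else p' with hf
      have fl : f l = p := by rw [hf]; simp
      have fl' : f l' = p' := by rw [hf]; simp [hll.symm]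
      have h := hCNT x {l, l'} f
        (by
          intro j hj
          rw [mem_insert, mem_singleton] at hj
          rcases hj with rfl | rfl
          · rw [fl]; exact hp
          · rw [fl']; exact hp')
        (by
          intro a ha b hb hab
          rw [mem_insert, mem_singleton] at ha hb
          rcases ha with rfl | rfl <;> rcases hb with rfl | rfl
          · rfl
          · rw [fl, fl'] at hab
            exact absurd hab hpp
          · rw [fl, fl'] at hab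
            exact absurd hab.symm hpp
          · rfl)
        (A.filter (fun n => 2 ^ l < n ∧ 2 ^ l' < n ∧ p ^ 2 ∣ n - 2 ^ l ∧ p' ^ 2 ∣ n - 2 ^ l'))
        (by
          intro n hn
          rw [mem_filter] at hn
          obtain ⟨hnA, h1, h2, h3, h4⟩ := hn
          refine ⟨(hA n hnA).1, ?_⟩
          intro j hj
          rw [mem_insert, mem_singleton] at hj
          rcases hj with rfl | rfl
          · rw [fl]; exact ⟨h1, h3⟩
          · rw [fl']; exact ⟨h2, h4⟩)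
      rw [prod_pair hll, fl, fl'] at h
      have hpos : (0 : ℝ) < (p : ℝ) ^ 2 * (p' : ℝ) ^ 2 := by
        have := hp.pos
        have := hp'.pos
        positivity
      have hle : (x : ℝ) / ((p : ℝ) ^ 2 * (p' : ℝ) ^ 2) ≤ 1 := by
        rw [div_le_one hpos, ← mul_pow]
        exact_mod_cast hx3
      linarith
    · simp
  have hroot := one_le_root x hx
  have hcr := cr_le_root x hx
  have hlog := log_bound x hx
  have hlog0 : 0 ≤ Real.log x := Real.log_nonneg (by exact_mod_cast hx)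
  rw [← root_sq]
  calc (A.card : ℝ) ≤ ((I.biUnion F).card : ℝ) := by exact_mod_cast card_le_card hcover
    _ ≤ ((∑ v ∈ I, (F v).card : ℕ) : ℝ) := by exact_mod_cast card_biUnion_le
    _ = ∑ v ∈ I, ((F v).card : ℝ) := by push_cast; rfl
    _ ≤ ∑ _v ∈ I, (2 : ℝ) := sum_le_sum hone
    _ = (((Nat.log 2 x + 1 : ℕ) : ℝ) * ((Nat.log 2 x + 1 : ℕ) : ℝ)) * ((N : ℝ) * N) * 2 := by
        rw [sum_const, nsmul_eq_mul, hI, card_product, card_product, card_product, hR,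
          card_range, card_range]
        push_cast
        ring
    _ ≤ ((2 * (1 + Real.log x)) * (2 * (1 + Real.log x))) *
        ((2 * (x : ℝ) ^ (1 / 3 : ℝ)) * (2 * (x : ℝ) ^ (1 / 3 : ℝ))) * 2 := by
        gcongr
    _ = 32 * (1 + Real.log x) ^ 2 * ((x : ℝ) ^ (1 / 3 : ℝ)) ^ 2 := by ring

end Pool.Agent.H74.SP
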